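import Mathlib

set_option autoImplicit false

/-! Closed left saturated semigroups of ultrafilters on a group. -/

open Filter Set Topology

attribute [local instance] Ultrafilter.add Ultrafilter.addSemigroup

namespace Pool.Agent.H828.MR

variable {G : Type*}

theorem uf_eq {p q : Ultrafilter G} (h : ∀ A ∈ p, A ∈ q) : p = q := by
  have : (q : Filter G) ≤ p := fun A hA => h A hA
  exact (Ultrafilter.coe_le_coe.1 this).symm

theorem sepPoint {K : Set (Ultrafilter G)} (hK : IsClosed K) {x : Ultrafilter G} (hx : x ∉ K) :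
    ∃ A ∈ x, ∀ p ∈ K, A ∉ p := by
  obtain ⟨V, ⟨A, rfl⟩, hxV, hV⟩ :=
    ultrafilterBasis_is_basis.exists_subset_of_mem_open (show x ∈ Kᶜ from hx) hK.isOpen_compl
  exact ⟨A, hxV, fun p hp hA => hV hA hp⟩

theorem sepSets {K L : Set (Ultrafilter G)} (hK : IsClosed K) (hL : IsClosed L)
    (hd : ∀ p ∈ K, p ∉ L) : ∃ A : Set G, (∀ p ∈ K, A ∈ p) ∧ (∀ p ∈ L, A ∉ p) := by
  refine hK.isCompact.induction_on
    (p := fun S => ∃ A : Set G, (∀ p ∈ S, A ∈ p) ∧ (∀ p ∈ L, A ∉ p)) ?_ ?_ ?_ ?_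
  · exact ⟨∅, fun p hp => hp.elim, fun p _ => p.empty_notMem⟩
  · rintro S T hST ⟨A, h1, h2⟩
    exact ⟨A, fun p hp => h1 p (hST hp), h2⟩
  · rintro S T ⟨A, h1, h2⟩ ⟨B, h3, h4⟩
    refine ⟨A ∪ B, ?_, ?_⟩
    · rintro p (hp | hp)
      · exact mem_of_superset (h1 p hp) subset_union_left
      · exact mem_of_superset (h3 p hp) subset_union_right
    · intro p hp h
      rcases Ultrafilter.union_mem_iff.1 h with h | h
      · exact h2 p hp h
      · exact h4 p hp h
  · intro x hx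
    obtain ⟨A, hA, hA'⟩ := sepPoint hL (hd x hx)
    exact ⟨{p | A ∈ p}, mem_nhdsWithin_of_mem_nhds
      ((ultrafilter_isOpen_basic A).mem_nhds hA), A, fun p hp => hp, hA'⟩

variable [AddGroup G]

theorem mem_add_iff {p q : Ultrafilter G} {A : Set G} :
    A ∈ p + q ↔ ∀ᶠ x in (p : Filter G), ∀ᶠ y in (q : Filter G), x + y ∈ A :=
  Ultrafilter.eventually_add p q (· ∈ A)

/-- `q`-open sets. -/
def QO (q : Ultrafilter G) (U : Set G) : Prop := ∀ x ∈ U, ∀ᶠ y in (q : Filter G), x + y ∈ U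

/-- The free ultrafilters converging to `0` in the topology of `q`-open sets. -/
def CC (q : Ultrafilter G) : Set (Ultrafilter G) :=
  {p | ({0}ᶜ : Set G) ∈ p ∧ ∀ U, QO q U → (0 : G) ∈ U → U ∈ p}

/-- `q` has a decoder `f` with depth function `d`. -/
structure Dec (q : Ultrafilter G) (f : G → G) (d : G → ℕ) : Prop where
  f0 : f 0 = 0
  d0 : d 0 = 0
  ds : ∀ z, z ≠ 0 → d z = d (f z) + 1
  dec : ∀ x, ∀ᶠ y in (q : Filter G), x + y ≠ 0 ∧ f (x + y) = x

/-- Closed, left saturated subsemigroups. -/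
structure Sat (q : Ultrafilter G) (D : Set (Ultrafilter G)) : Prop where
  closed : IsClosed D
  ne : D.Nonempty
  sub : D ⊆ CC q
  add : ∀ x ∈ D, ∀ y ∈ D, x + y ∈ D
  sat : ∀ s : Ultrafilter G, ∀ y ∈ D, s + y ∈ D → s ∈ D ∨ ({0} : Set G) ∈ s

theorem zero_or (s : Ultrafilter G) : ({0} : Set G) ∈ s ∨ ({0}ᶜ : Set G) ∈ s := by
  by_cases h : ({0} : Set G) ∈ s
  · exact Or.inl h
  · exact Or.inr (Ultrafilter.compl_mem_iff_notMem.2 h)

theorem not_both {s : Ultrafilter G} (h1 : ({0} : Set G) ∈ s) (h2 : ({0}ᶜ : Set G) ∈ s) : False :=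
  (Ultrafilter.compl_mem_iff_notMem.1 h2) h1

theorem CC_closed (q : Ultrafilter G) : IsClosed (CC q) := by
  have : CC q = {p | ({0}ᶜ : Set G) ∈ p} ∩ ⋂ (U : Set G) (_ : QO q U) (_ : (0 : G) ∈ U),
      {p | U ∈ p} := by
    ext p; simp [CC]
  rw [this]
  refine (ultrafilter_isClosed_basic _).inter ?_
  exact isClosed_iInter fun U => isClosed_iInter fun _ => isClosed_iInter fun _ =>
    ultrafilter_isClosed_basic U

theorem QO_shift {q : Ultrafilter G} {U : Set G} (hU : QO q U) (x : G) :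
    QO q {y | x + y ∈ U} := by
  intro y hy
  have := hU (x + y) hy
  filter_upwards [this] with y' h'
  show x + (y + y') ∈ U
  rwa [← add_assoc]

section dec
variable {q : Ultrafilter G} {f : G → G} {d : G → ℕ} (h : Dec q f d)
include h

theorem Dec.d_pos {z : G} (hz : z ≠ 0) : 0 < d z := by rw [h.ds z hz]; omega

theorem Dec.d_eq_zero {z : G} (hz : d z = 0) : z = 0 := by
  by_contra hne
  have := h.d_pos hne
  omega

theorem Dec.q_free : ({0}ᶜ : Set G) ∈ q := by
  have := h.dec 0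
  refine mem_of_superset this ?_
  rintro y ⟨hy, -⟩
  simpa using hy

theorem Dec.q_mem : q ∈ CC q := by
  refine ⟨h.q_free, fun U hU h0 => ?_⟩
  have := hU 0 h0
  simpa using this

/-- the main open set: typical `y` sits on top of `x`. -/
theorem Dec.QO_E (x : G) : QO q {y | d (x + y) = d x + d y ∧ f^[d y] (x + y) = x} := by
  rintro y ⟨h1, h2⟩
  filter_upwards [h.dec (x + y), h.dec y] with y' h3 h4
  rw [add_assoc] at h3
  refine ⟨?_, ?_⟩
  · rw [h.ds _ h3.1, h3.2, h.ds _ h4.1, h4.2, h1]; omega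
  · rw [h.ds _ h4.1, h4.2, Function.iterate_succ_apply, h3.2, h2]

theorem Dec.E_zero (x : G) : (0 : G) ∈ {y | d (x + y) = d x + d y ∧ f^[d y] (x + y) = x} := by
  simp [h.d0]

theorem Dec.E_mem {p : Ultrafilter G} (hp : p ∈ CC q) (x : G) :
    ∀ᶠ y in (p : Filter G), d (x + y) = d x + d y ∧ f^[d y] (x + y) = x :=
  hp.2 _ (h.QO_E x) (h.E_zero x)

theorem Dec.ne_mem {p : Ultrafilter G} (hp : p ∈ CC q) (x : G) :
    ∀ᶠ y in (p : Filter G), y ≠ 0 ∧ x + y ≠ 0 := by
  filter_upwards [hp.1, h.E_mem hp x] with y hy hE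
  refine ⟨hy, fun h0 => ?_⟩
  have := h.d_pos (show y ≠ 0 from hy)
  rw [h0, h.d0] at hE
  omega

theorem Dec.CC_add {p p' : Ultrafilter G} (hp : p ∈ CC q) (hp' : p' ∈ CC q) : p + p' ∈ CC q := by
  refine ⟨?_, fun U hU h0 => ?_⟩
  · rw [mem_add_iff]
    refine Eventually.of_forall fun x => ?_
    filter_upwards [h.ne_mem hp' x] with y hy
    exact hy.2
  · rw [mem_add_iff]
    filter_upwards [hp.2 U hU h0] with x hx
    exact hp'.2 _ (QO_shift hU x) (by simpa using hx)

theorem Dec.iter_zero (k : ℕ) : f^[k] 0 = 0 := by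
  induction k with
  | zero => rfl
  | succ k ih => rw [Function.iterate_succ_apply', ih, h.f0]

theorem Dec.d_iter (z : G) (k : ℕ) : d (f^[k] z) = d z - k := by
  induction k with
  | zero => simp
  | succ k ih =>
    rw [Function.iterate_succ_apply']
    by_cases hz : f^[k] z = 0
    · rw [hz, h.f0, h.d0]
      rw [hz, h.d0] at ih
      omega
    · have := h.ds _ hz
      omega

/-- clopen base. -/
theorem Dec.clopen {U : Set G} (hU : QO q U) (h0 : (0 : G) ∈ U) :
    ∃ V ⊆ U, (0 : G) ∈ V ∧ QO q V ∧ QO q Vᶜ := by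
  refine ⟨{z | ∀ k, f^[k] z ∈ U}, fun z hz => hz 0, ?_, ?_, ?_⟩
  · intro k; rw [h.iter_zero]; exact h0
  · intro z hz
    filter_upwards [h.dec z, hU z (hz 0)] with y h1 h2 k
    cases k with
    | zero => exact h2
    | succ k => rw [Function.iterate_succ_apply, h1.2]; exact hz k
  · intro z hz
    filter_upwards [h.dec z] with y h1 hy
    apply hz
    intro k
    have := hy (k + 1)
    rwa [Function.iterate_succ_apply, h1.2] at this

theorem Dec.CC_sat (s : Ultrafilter G) {p : Ultrafilter G} (hp : p ∈ CC q) (hs : s + p ∈ CC q) :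
    s ∈ CC q ∨ ({0} : Set G) ∈ s := by
  by_contra hcon
  push Not at hcon
  obtain ⟨hc1, hc2⟩ := hcon
  have hfree : ({0}ᶜ : Set G) ∈ s := (zero_or s).resolve_left hc2
  have : ∃ U, QO q U ∧ (0 : G) ∈ U ∧ U ∉ s := by
    by_contra hno
    push Not at hno
    exact hc1 ⟨hfree, fun U hU h0 => hno U hU h0⟩
  obtain ⟨U, hU, h0, hUs⟩ := this
  obtain ⟨V, hVU, hV0, hV, hVc⟩ := h.clopen hU h0
  have hVs : Vᶜ ∈ s := by
    apply Ultrafilter.compl_mem_iff_notMem.2
    intro hV'
    exact hUs (mem_of_superset hV' hVU)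
  have h1 : Vᶜ ∈ s + p := by
    rw [mem_add_iff]
    filter_upwards [hVs] with x hx
    exact hp.2 _ (QO_shift hVc x) (by simpa using hx)
  exact (Ultrafilter.compl_mem_iff_notMem.1 h1) (hs.2 V hV hV0)

theorem Dec.sat_CC : Sat q (CC q) :=
  ⟨CC_closed q, ⟨q, h.q_mem⟩, subset_rfl, fun _ hx _ hy => h.CC_add hx hy,
    fun s _ hy hs => h.CC_sat s hy hs⟩

end dec

/-- stabiliser. -/
def DD (p : Ultrafilter G) : Set (Ultrafilter G) := {s | ({0}ᶜ : Set G) ∈ s ∧ s + p = p}

theorem DD_closed (p : Ultrafilter G) : IsClosed (DD p) := by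
  refine (ultrafilter_isClosed_basic _).inter ?_
  exact isClosed_singleton.preimage (Ultrafilter.continuous_add_left p)

theorem Sat.DD_sub {q : Ultrafilter G} {D : Set (Ultrafilter G)} (hD : Sat q D)
    {p : Ultrafilter G} (hp : p ∈ D) : DD p ⊆ D := by
  rintro s ⟨h1, h2⟩
  rcases hD.sat s p hp (by rwa [h2]) with h | h
  · exact h
  · exact (not_both h h1).elim

theorem Sat.DD_sat {q : Ultrafilter G} {D : Set (Ultrafilter G)} (hD : Sat q D)
    {p : Ultrafilter G} (hp : p ∈ D) (hpp : p + p = p) : Sat q (DD p) := by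
  refine ⟨DD_closed p, ⟨p, (hD.sub hp).1, hpp⟩, (hD.DD_sub hp).trans hD.sub, ?_, ?_⟩
  · intro x hx y hy
    refine ⟨(hD.sub (hD.add x (hD.DD_sub hp hx) y (hD.DD_sub hp hy))).1, ?_⟩
    rw [add_assoc, hy.2, hx.2]
  · intro s y hy hs
    rcases zero_or s with h | h
    · exact Or.inr h
    · refine Or.inl ⟨h, ?_⟩
      have := hs.2
      rwa [add_assoc, hy.2] at this

theorem Sat.exists_idem {q : Ultrafilter G} {D : Set (Ultrafilter G)} (hD : Sat q D) :
    ∃ p ∈ D, p + p = p :=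
  exists_idempotent_in_compact_add_subsemigroup Ultrafilter.continuous_add_left D hD.ne
    hD.closed.isCompact (fun x hx y hy => hD.add x hx y hy)

theorem exists_minimal_sat {q : Ultrafilter G} (h0 : Sat q (CC q)) :
    ∃ D, Sat q D ∧ ∀ E, Sat q E → E ⊆ D → E = D := by
  obtain ⟨D, hD⟩ := zorn_superset_nonempty {D | Sat q D} (by
    intro c hc hchain hne
    refine ⟨⋂₀ c, ?_, fun s hs => sInter_subset_of_mem hs⟩
    refine ⟨isClosed_sInter fun t ht => (hc ht).closed, ?_, ?_, ?_, ?_⟩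
    · have : Nonempty c := hne.to_subtype
      rw [sInter_eq_iInter]
      apply IsCompact.nonempty_iInter_of_directed_nonempty_isCompact_isClosed
      · exact DirectedOn.directed_val (IsChain.directedOn hchain.symm)
      · exact fun i => (hc i.2).ne
      · exact fun i => (hc i.2).closed.isCompact
      · exact fun i => (hc i.2).closed
    · obtain ⟨t, ht⟩ := hne
      exact (sInter_subset_of_mem ht).trans (hc ht).sub
    · intro x hx y hy t ht
      exact (hc ht).add x (hx t ht) y (hy t ht)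
    · intro s y hy hs
      by_cases h : ({0} : Set G) ∈ s
      · exact Or.inr h
      · refine Or.inl fun t ht => ?_
        exact ((hc ht).sat s y (hy t ht) (hs t ht)).resolve_right h) (CC q) h0
  refine ⟨D, hD.2.prop, fun E hE hED => ?_⟩
  exact hD.2.eq_of_subset hE hED

end Pool.Agent.H828.MR
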