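import Mathlib

set_option autoImplicit false

/-! Definitions used in the statement. -/

universe u

open Cardinal Topology

namespace Pool.Agent.H828.MR

/-- `A ⊆ G` is `κ`-large, where `κ = |G|`: `G = F + A` for some `F` with `|F| < κ`. -/
def KappaLarge {G : Type u} [AddGroup G] (A : Set G) : Prop :=
  ∃ F : Set G, #F < #G ∧ ∀ g : G, ∃ f ∈ F, ∃ a ∈ A, f + a = g

/-- A topology is maximal: no isolated points, and every strictly finer (stronger) topology has an
isolated point. (`τ' < τ` in Mathlib means that `τ'` has strictly more open sets than `τ`.) -/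
def MaximalTopology {X : Type u} (τ : TopologicalSpace X) : Prop :=
  (∀ x : X, ¬ IsOpen[τ] {x}) ∧ ∀ τ' : TopologicalSpace X, τ' < τ → ∃ x : X, IsOpen[τ'] {x}

end Pool.Agent.H828.MR
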